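import Pool.Agent.P.MP_860ca8_ag.Final

namespace Pool.Agent.Results.MP_860ca8_ag.Largest

open Pool.Agent.P.MP_860ca8_ag

theorem result (K : Type*) [Field K] [IsAlgClosed K] (n r : ℕ) (hr : 1 ≤ r) (hn : r ≤ n) :
    (r < minCore (ringChar K) → nonCompressionDims K n r = ∅) ∧
    (minCore (ringChar K) ≤ r →
      ∃ k, k + 1 = topDim (ringChar K) n r ∧ IsGreatest (nonCompressionDims K n r) k) := by
  obtain ⟨ρ, rfl⟩ : ∃ ρ, r = ρ + 1 := ⟨r - 1, by omega⟩
  refine ⟨fun h => Set.eq_empty_of_forall_notMem fun k hk => ?_, fun h => ?_⟩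
  · have := (upper_matrix hn hk).1
    omega
  · have h3 := three_le_topDim (ringChar K) n (ρ + 1) h
    obtain ⟨d, hd⟩ : ∃ d, d + 1 = topDim (ringChar K) n (ρ + 1) :=
      ⟨topDim (ringChar K) n (ρ + 1) - 1, by omega⟩
    have hub : ∀ k ∈ nonCompressionDims K n (ρ + 1), k ≤ d := fun k hk => by
      have := (upper_matrix hn hk).2
      omega
    obtain ⟨k, k1, k2⟩ := lower_matrix hn (hd ▸ good_topDim (K := K) n ρ h hn)
    exact ⟨d, hd, le_antisymm (hub k k2) k1 ▸ k2, hub⟩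

end Pool.Agent.Results.MP_860ca8_ag.Largest
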